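import Pool.Agent.Helper69.LT.St
import Pool.Agent.Helper84.LE.M_LastU
import Pool.Agent.Helper84.LE.BGR

/-! Project LT (MP_65faa7), module Norm. -/

set_option autoImplicit false

open scoped BigOperators ENNReal
open Pool.LE Pool.NL

namespace Pool.LT

namespace NormM

theorem con_of_erase {V : Type} [DecidableEq V] {ω η : Finset (Sym2 V)} (h : η ⊆ ω) {x y : V}
    (hc : con η x y) : con ω x y := by
  unfold con at *
  refine SimpleGraph.Reachable.mono ?_ hc
  unfold gr
  exact SimpleGraph.fromEdgeSet_mono (by exact_mod_cast h)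

theorem con_edge {V : Type} [DecidableEq V] {ω : Finset (Sym2 V)} {c b : V} (h : s(c, b) ∈ ω) :
    con ω c b := by
  by_cases hne : c = b
  · subst hne
    exact SimpleGraph.Reachable.refl _
  · apply SimpleGraph.Adj.reachable
    unfold gr
    rw [SimpleGraph.fromEdgeSet_adj]
    exact ⟨by exact_mod_cast h, hne⟩

theorem ofReal_abs_le_one {x : ℝ} (h : |x| ≤ 1) : ENNReal.ofReal |x| ≤ 1 := by
  rw [← ENNReal.ofReal_one]
  exact ENNReal.ofReal_le_ofReal h

theorem ofReal_abs_sub_le {x y : ℝ} : ENNReal.ofReal |x - y| ≤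
    ENNReal.ofReal |x| + ENNReal.ofReal |y| := by
  rw [← ENNReal.ofReal_add (abs_nonneg x) (abs_nonneg y)]
  exact ENNReal.ofReal_le_ofReal (abs_sub x y)

theorem nl_mul (lam : ENNReal) (a d : DualNumber ℝ) (K1 K2 : ENNReal) (h0 : 0 ≤ a.fst)
    (h1 : a.fst ≤ 1) (hd : |d.fst| ≤ 1) (ha2 : ENNReal.ofReal |a.snd| ≤ K1)
    (hd2 : ENNReal.ofReal |d.snd| ≤ K2) : Nl lam (a * d) ≤ 1 + lam * (K2 + K1) := by
  unfold Nl
  have habs : |a.fst| ≤ 1 := by
    rw [abs_of_nonneg h0]
    exact h1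
  have e1 : (a * d).fst = a.fst * d.fst := TrivSqZeroExt.fst_mul a d
  have e2 : (a * d).snd = a.fst * d.snd + a.snd * d.fst := DualNumber.snd_mul a d
  rw [e1, e2]
  refine add_le_add ?_ (mul_le_mul_right ?_ lam)
  · apply ofReal_abs_le_one
    rw [abs_mul]
    exact mul_le_one₀ habs (abs_nonneg _) hd
  · have e3 : |a.fst * d.snd + a.snd * d.fst| ≤ |d.snd| + |a.snd| := by
      refine (abs_add_le _ _).trans (add_le_add ?_ ?_)
      · rw [abs_mul]
        exact mul_le_of_le_one_left (abs_nonneg _) habs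
      · rw [abs_mul]
        exact mul_le_of_le_one_right (abs_nonneg _) hd
    calc ENNReal.ofReal |a.fst * d.snd + a.snd * d.fst|
        ≤ ENNReal.ofReal (|d.snd| + |a.snd|) := ENNReal.ofReal_le_ofReal e3
      _ = ENNReal.ofReal |d.snd| + ENNReal.ofReal |a.snd| :=
          ENNReal.ofReal_add (abs_nonneg _) (abs_nonneg _)
      _ ≤ K2 + K1 := add_le_add hd2 ha2

/-- the difference of the two weights -/
theorem diff_bound (hProd : SProd) {V : Type} [DecidableEq V] (L : Finset V) (ρ k : V → ℝ)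
    (ω : Finset (Sym2 V)) (A : Set V) (v u : V) (hρ : ∀ y, 0 ≤ ρ y ∧ ρ y ≤ 1) :
    |(mT L (dw ρ k) ω v u - mA L (dw ρ k) ω A v u).fst| ≤ 1 ∧
    ENNReal.ofReal |(mT L (dw ρ k) ω v u - mA L (dw ρ k) ω A v u).snd| ≤
      kap L k ω v + kap L k ω v := by
  obtain ⟨-, -, -, -, h1, h2, h3, h4, -⟩ := hProd V L ρ k ω v u A hρ
  constructor
  · rw [TrivSqZeroExt.fst_sub, abs_le]
    constructor
    · linarith [h1.1, h2.2]
    · linarith [h1.2, h2.1]
  · rw [TrivSqZeroExt.snd_sub]
    exact ofReal_abs_sub_le.trans (add_le_add h3 h4)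

theorem le_sum {V : Type} (f : V → V → ENNReal) (t s : V) : f t s ≤ ∑' t : V, ∑' s : V, f t s :=
  (ENNReal.le_tsum (f := fun s => f t s) s).trans (ENNReal.le_tsum (f := fun t => ∑' s, f t s) t)

end NormM

open Classical in
theorem hNorm : SNl → SProd → SVan → SNorm := by
  intro hNl hProd hVan V _ L ρ k lam ω A v u hρ
  obtain ⟨hN0, -⟩ := hNl lam
  -- it is enough to find one `t` and one `s`
  have key : ∀ t s : V, s ∈ A → Bp ω v u t s →
      Nl lam (vA L (dw ρ k) ω A v u) ≤ 1 + 3 * lam * kap L k ω v →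
      Nl lam (vA L (dw ρ k) ω A v u) ≤ (1 + 3 * lam * kap L k ω v) *
        ∑' t : V, ∑' s : V, if s ∈ A ∧ Bp ω v u t s then 1 else 0 := by
    intro t s hs hB hle
    refine hle.trans ?_
    have h1 : (1 : ENNReal) ≤ ∑' t : V, ∑' s : V, if s ∈ A ∧ Bp ω v u t s then 1 else 0 := by
      refine le_trans ?_ (NormM.le_sum (fun t s => if s ∈ A ∧ Bp ω v u t s then (1 : ENNReal) else 0)
        t s)
      rw [if_pos ⟨hs, hB⟩]
    calc 1 + 3 * lam * kap L k ω v = (1 + 3 * lam * kap L k ω v) * 1 := (mul_one _).symm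
      _ ≤ _ := mul_le_mul_right h1 _
  have hzero : vA L (dw ρ k) ω A v u = 0 →
      Nl lam (vA L (dw ρ k) ω A v u) ≤ (1 + 3 * lam * kap L k ω v) *
        ∑' t : V, ∑' s : V, if s ∈ A ∧ Bp ω v u t s then 1 else 0 := by
    intro h
    rw [h, hN0]
    exact zero_le
  obtain ⟨hU1, hU2⟩ := hLastU V ω v u
  by_cases hd : dbl ω v u
  · -- no pivotal edge
    have hw : vA L (dw ρ k) ω A v u = mT L (dw ρ k) ω v u - mA L (dw ρ k) ω A v u := by
      unfold vA
      rw [if_pos hd, Finset.sum_eq_zero, add_zero]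
      intro cb _
      rw [if_neg (fun h => hU1 _ _ hd h.1)]
    by_cases hs : ∃ s ∈ A, con ω v s
    · obtain ⟨s, hs, hcs⟩ := hs
      refine key v s hs ⟨hd, Or.inl ⟨rfl, hcs⟩⟩ ?_
      rw [hw]
      obtain ⟨h1, h2⟩ := NormM.diff_bound hProd L ρ k ω A v u hρ
      unfold Nl
      refine add_le_add (NormM.ofReal_abs_le_one h1) ?_
      calc lam * ENNReal.ofReal |(mT L (dw ρ k) ω v u - mA L (dw ρ k) ω A v u).snd|
          ≤ lam * (kap L k ω v + kap L k ω v) := mul_le_mul_right h2 lam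
        _ ≤ lam * (kap L k ω v + kap L k ω v + kap L k ω v) :=
            mul_le_mul_right (le_add_of_nonneg_right zero_le) lam
        _ = 3 * lam * kap L k ω v := by ring
    · apply hzero
      push Not at hs
      rw [hw, (hVan V (DualNumber ℝ) L (dw ρ k) ω A v u).2.2.2 hs, sub_self]
  · by_cases hex : ∃ c b, piv ω v u c b ∧ dbl ω b u
    · obtain ⟨c, b, hp, hdb⟩ := hex
      have hmem : (c, b) ∈ drt ω := mem_drt.2 hp.1
      have hw : vA L (dw ρ k) ω A v u = mA L (dw ρ k) (ω.erase s(c, b)) A v c *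
          (mT L (dw ρ k) (ω.erase s(c, b)) b u - mA L (dw ρ k) (ω.erase s(c, b)) A b u) := by
        unfold vA
        rw [if_neg hd, zero_add, Finset.sum_eq_single_of_mem (c, b) hmem]
        · rw [if_pos ⟨hp, hdb⟩]
        · intro cb _ hne
          rw [if_neg]
          rintro ⟨h1, h2⟩
          obtain ⟨e1, e2⟩ := hU2 _ _ _ _ hp hdb h1 h2
          exact hne (Prod.ext e1.symm e2.symm)
      by_cases hs : ∃ s ∈ A, con (ω.erase s(c, b)) b s
      · obtain ⟨s, hs, hcs⟩ := hs
        refine key b s hs ⟨hdb, Or.inr ⟨c, hp, hcs⟩⟩ ?_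
        rw [hw]
        obtain ⟨h1, h2⟩ := NormM.diff_bound hProd L ρ k (ω.erase s(c, b)) A b u hρ
        obtain ⟨-, -, -, -, -, h3, -, h4, -⟩ :=
          hProd V L ρ k (ω.erase s(c, b)) v c A hρ
        obtain ⟨-, -, -, -, -, -, -, -, h5⟩ := hProd V L ρ k ω v c A hρ
        have hsub : ω.erase s(c, b) ⊆ ω := Finset.erase_subset _ _
        have hvc : con ω v c := NormM.con_of_erase hsub hp.2.1
        have hvb : con ω v b := SimpleGraph.Reachable.trans hvc (NormM.con_edge hp.1)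
        have k1 : kap L k (ω.erase s(c, b)) b ≤ kap L k ω v := h5 _ hsub b hvb
        have k2 : kap L k (ω.erase s(c, b)) v ≤ kap L k ω v :=
          h5 _ hsub v (SimpleGraph.Reachable.refl _)
        refine (NormM.nl_mul lam _ _ (kap L k ω v) (kap L k ω v + kap L k ω v) h3.1 h3.2 h1
          (h4.trans k2) (h2.trans (add_le_add k1 k1))).trans ?_
        apply le_of_eq
        ring
      · apply hzero
        push Not at hs
        rw [hw, (hVan V (DualNumber ℝ) L (dw ρ k) (ω.erase s(c, b)) A b u).2.2.2 hs, sub_self,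
          mul_zero]
    · apply hzero
      unfold vA
      rw [if_neg hd, zero_add, Finset.sum_eq_zero]
      intro cb _
      rw [if_neg (fun h => hex ⟨_, _, h⟩)]

end Pool.LT
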